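import Pool.Agent.H43.LR.Rel

/-!
For almost all k <= X, the number of m <= M with m^3+k prime is asymptotic to the count of Hardy and
Littlewood, uniformly for X^theta1 <= M <= X^theta2, for all fixed theta1 > 1/9 and theta2 < 3/7 (the singular
series is cut off at the primes up to y, y as large as one wants). The exceptional set for a relative error
delta has at most C (delta^2 y^(1/24))^(-1/3) X elements, C depends only on theta1, theta2.
-/

namespace Pool.Agent.H43.Old.AlmostAllRanges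

open Finset

/-- number of residues `m` modulo `p` with `p ∣ m^3+k` -/
def nu (p k : ℕ) : ℕ := ((range p).filter fun m => p ∣ m ^ 3 + k).card

/-- the product of Hardy and Littlewood for `m^3+k` over the primes up to `y` -/
noncomputable def S (y k : ℕ) : ℝ :=
  ∏ p ∈ (Icc 1 y).filter Nat.Prime, (1 - (nu p k : ℝ) / p) / (1 - 1 / (p : ℝ))

/-- number of `m ≤ M`, `m ≥ 1`, with `m^3+k` prime -/
def primeCount (M k : ℕ) : ℕ := ((Icc 1 M).filter (fun m => (m ^ 3 + k).Prime)).card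

/-- the sum of `1 / log (X+m^3)` over `1 ≤ m ≤ M` -/
noncomputable def V (X M : ℕ) : ℝ := ∑ m ∈ Icc 1 M, 1 / Real.log ((X : ℝ) + (m : ℝ) ^ 3)

theorem result (θ1 θ2 : ℝ) (hθ1 : 1 / 9 < θ1) (hθ2 : θ2 < 3 / 7) :
    ∃ C : ℝ, ∀ y : ℕ, 1 ≤ y → ∃ X0 : ℕ, 2 ≤ X0 ∧
    ∀ X M : ℕ, X0 ≤ X → (X : ℝ) ^ θ1 ≤ M → (M : ℝ) ≤ (X : ℝ) ^ θ2 → ∀ δ : ℝ, 0 < δ →
    ((((Icc 1 X).filter (fun k =>
      δ * (S y k * V X M) < |(primeCount M k : ℝ) - S y k * V X M|)).card : ℕ) : ℝ)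
      ≤ C * (δ ^ 2 * (y : ℝ) ^ ((1 : ℝ) / 24)) ^ (-(1 : ℝ) / 3) * X :=
  H43.LR.final_rel θ1 θ2 hθ1 hθ2

end Pool.Agent.H43.Old.AlmostAllRanges
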