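import Pool.Agent.H43.HL.Cor

/-!
For every fixed theta > 1/9 and almost all k <= X, the number of m <= M with m^3+k prime is asymptotic to
the count of Hardy and Littlewood, where X^theta <= M <= X^(1/3) (the singular series is cut off at the
primes up to y, y as large as one wants). The exceptional set for a relative error delta has at most
C (delta^2 y^(1/24))^(-1/3) X elements, C depends only on theta.
-/

namespace Pool.Agent.Results.MP_4d57ea_nt.AlmostAllShort

open Finset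

/-- number of residues `m` modulo `p` with `p ∣ m^3+k` -/
def nu (p k : ℕ) : ℕ := ((range p).filter fun m => p ∣ m ^ 3 + k).card

/-- the product of Hardy and Littlewood for `m^3+k` over the primes up to `y` -/
noncomputable def S (y k : ℕ) : ℝ :=
  ∏ p ∈ (Icc 1 y).filter Nat.Prime, (1 - (nu p k : ℝ) / p) / (1 - 1 / (p : ℝ))

/-- number of `m ≤ M`, `m ≥ 1`, with `m^3+k` prime -/
def primeCount (M k : ℕ) : ℕ := ((Icc 1 M).filter (fun m => (m ^ 3 + k).Prime)).card

theorem result (θ : ℝ) (hθ : 1 / 9 < θ) :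
    ∃ C : ℝ, ∀ y : ℕ, 1 ≤ y → ∃ X0 : ℕ, 2 ≤ X0 ∧
    ∀ X M : ℕ, X0 ≤ X → (X : ℝ) ^ θ ≤ M → M ^ 3 ≤ X → ∀ δ : ℝ, 0 < δ →
    ((((Icc 1 X).filter (fun k =>
      δ * (M / Real.log X * S y k) < |(primeCount M k : ℝ) - M / Real.log X * S y k|)).card : ℕ) : ℝ)
      ≤ C * (δ ^ 2 * (y : ℝ) ^ ((1 : ℝ) / 24)) ^ (-(1 : ℝ) / 3) * X :=
  H43.HL.relative θ hθ

end Pool.Agent.Results.MP_4d57ea_nt.AlmostAllShort
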