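import Pool.Agent.H43.TQ.Fin2

/-!
For all `k <= X` with at most `X (log X)^(-B)` exceptions, `m^3+k` is a product of exactly two primes for the
expected number of `m <= M`, with relative error `(log X)^(-B)`, as soon as `(log X)^C <= M <= X^(1/3)`.
-/

namespace Pool.Agent.H43.Old.TwoPrimesShort

open Finset

/-- number of residues `m` modulo `p` with `p ∣ m^3+k` -/
def nu (p k : ℕ) : ℕ := ((range p).filter fun m => p ∣ m ^ 3 + k).card

/-- the product of Hardy and Littlewood for `m^3+k` over the primes up to `y` -/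
noncomputable def S (y k : ℕ) : ℝ :=
  ∏ p ∈ (Icc 1 y).filter Nat.Prime, (1 - (nu p k : ℝ) / p) / (1 - 1 / (p : ℝ))

/-- `n = p1 p2` with primes `p1`, `p2` and `(log X)^A < p1 ≤ (log X)^(2A)` -/
def TwoPrimes (A X n : ℕ) : Prop := ∃ p1 p2 : ℕ, p1.Prime ∧ p2.Prime ∧ (Real.log X) ^ A < p1 ∧
  (p1 : ℝ) ≤ (Real.log X) ^ (2 * A) ∧ n = p1 * p2

open Classical in
/-- number of `1 ≤ m ≤ M` such that `m^3+k` is of the form `TwoPrimes` -/
noncomputable def count (A X M k : ℕ) : ℕ :=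
  ((Icc 1 M).filter (fun m => TwoPrimes A X (m ^ 3 + k))).card

/-- the sum of `1 / (p log (n/p))` over the primes `P < p ≤ P2` -/
noncomputable def dens (P P2 n : ℕ) : ℝ :=
  ∑ p ∈ (Ioc P P2).filter Nat.Prime, 1 / ((p : ℝ) * Real.log ((n : ℝ) / p))

/-- the expected number: `S y k` times the sum of the densities at `m^3+k`, `y = (log X)^C` -/
noncomputable def expected (A X M k : ℕ) (C : ℝ) : ℝ :=
  S ⌊(Real.log X) ^ C⌋₊ k *
    ∑ m ∈ Icc 1 M, dens ⌊(Real.log X) ^ A⌋₊ ⌊(Real.log X) ^ (2 * A)⌋₊ (m ^ 3 + k)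

theorem result (B : ℝ) (hB : 0 < B) : ∃ A0 : ℕ, ∀ A : ℕ, A0 ≤ A →
    ∃ C0 : ℝ, 0 < C0 ∧ ∀ C : ℝ, C0 ≤ C → ∃ X0 : ℕ, ∀ X : ℕ, X0 ≤ X → ∀ M : ℕ,
    (Real.log X) ^ C ≤ M → M ^ 3 ≤ X →
    ((((Icc 1 X).filter (fun k => (Real.log X) ^ (-B) * expected A X M k C <
      |(count A X M k : ℝ) - expected A X M k C|)).card : ℕ) : ℝ) ≤ X * (Real.log X) ^ (-B) :=
  H43.TQ.final2 B hB

end Pool.Agent.H43.Old.TwoPrimesShort
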